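import Pool.Agent.H79.PRK.S6

/-!
# PRK, row DNZK: the family has positive density
-/

set_option autoImplicit false

namespace Pool.PRK

open Polynomial Matrix Pool.HYP Pool.TOW Pool.AVS Pool.T1 IsDedekindDomain

theorem dnzk : DNZKStmt := by
  classical
  intro hZ hFAM hALL hGRO hTWF hIRR R _ _ K _ _ _ O π H hU hL hX g A D hg hden hA hD dS hdS E hE
  obtain ⟨cL, hcL⟩ := hL
  obtain ⟨h₂, h2⟩ := hden D hD hA
  obtain ⟨h₃, h3⟩ := hFAM R K O π H (fun m => (hU m).1) hX g D hg hD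
  obtain ⟨c, hc⟩ := hGRO R K O π H hU ⟨cL, hcL⟩ g E
  set W : ℕ := (∏ P ∈ D.T, Nm P ^ (2 * g + 1)) * (∏ P ∈ D.T', Nm P ^ (2 * g + 1)) *
    qq O ^ (2 * g + 1) with hW
  refine ⟨((c * (W * 2) + 1 : ℕ) : ℝ)⁻¹, by positivity, max h₂ h₃, fun h hh => ?_⟩
  have hh2 : h₂ ≤ h := by omega
  have hh3 : h₃ ≤ h := by omega
  have hfinA : ∀ n, (All R O π g n).Finite := fun n =>
    (hALL R K O π H (fun m => (hU m).1) g n).1
  have hfinS : (AllS R O π g (h + E)).Finite := (hfinA _).subset fun f hf => hf.1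
  have hAfin : (Fam π g D h).Finite := (hfinA h).subset fun f hf => hf.1
  have hSfin : (FamS π g D h).Finite := hAfin.subset fun f hf => hf.1
  -- the size of `FamS`
  have h4 : (Fam π g D h).ncard ≤ 2 * (FamS π g D h).ncard := by
    have h5 : Fam π g D h ⊆ FamS π g D h ∪ {f ∈ Fam π g D h | ¬ Smooth f} := by
      intro f hf
      by_cases h6 : Smooth f
      · exact Or.inl ⟨hf, h6⟩
      · exact Or.inr ⟨hf, h6⟩
    have h7 : (Fam π g D h).ncard ≤
        (FamS π g D h ∪ {f ∈ Fam π g D h | ¬ Smooth f}).ncard :=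
      Set.ncard_le_ncard h5 (hSfin.union (hAfin.subset fun f hf => hf.1))
    have h8 := Set.ncard_union_le (FamS π g D h) {f ∈ Fam π g D h | ¬ Smooth f}
    have h9 := h2 h hh2
    omega
  have hFW := h3 h hh3
  have hFW' : (Fam π g D h).ncard * W = (All R O π g h).ncard := by
    rw [← hFW, hW]
    ring
  have hAp := all_pos H g h (hfinA h)
  have hSpos : 0 < (FamS π g D h).ncard := by
    rcases Nat.eq_zero_or_pos (FamS π g D h).ncard with h0 | h0
    · rw [h0, mul_zero] at h4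
      rw [Nat.le_zero.1 h4, zero_mul] at hFW'
      omega
    · exact h0
  obtain ⟨hZ1, hZ2⟩ := (hZ R K O π g D h hg hD dS hdS).2 (FamS π g D h) (fun f hf => hf.1) hSfin
  have hSl : 0 < (Sl D.T).card := by
    obtain ⟨S, hS1, hS2⟩ := Finset.exists_subset_card_eq (Nat.div_le_self D.T.card 2)
    exact Finset.card_pos.2 ⟨S, Finset.mem_filter.2 ⟨Finset.mem_powerset.2 hS1, Or.inl hS2⟩⟩
  have hZS : (FamS π g D h).ncard ≤ (ZA K D dS (FamS π g D h)).ncard := by
    rw [hZ2]
    exact Nat.le_mul_of_pos_left _ hSl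
  refine ⟨(Set.ncard_pos hSfin).1 hSpos, hfinS, ?_, ?_⟩
  · rintro q ⟨f, hf, S, hS, rfl⟩
    have hS' : S ⊆ D.T := Finset.mem_powerset.1 (Finset.mem_filter.1 hS).1
    exact ⟨_, hTWF R K O π H g h E f (dS S)
      ⟨hf.1.1, (hIRR R K O π H g D h hg hD f hf.1).2⟩ (hdS S hS').1 (hE S hS'), rfl⟩
  · have hS1 : (AllS R O π g (h + E)).ncard ≤
        c * (W * 2) * (ZA K D dS (FamS π g D h)).ncard := by
      calc (AllS R O π g (h + E)).ncard ≤ (All R O π g (h + E)).ncard :=
            Set.ncard_le_ncard (fun f hf => hf.1) (hfinA _)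
        _ ≤ c * (All R O π g h).ncard := hc h
        _ = c * ((Fam π g D h).ncard * W) := by rw [hFW']
        _ ≤ c * ((2 * (ZA K D dS (FamS π g D h)).ncard) * W) :=
            Nat.mul_le_mul_left _ (Nat.mul_le_mul_right _ (h4.trans
              (Nat.mul_le_mul_left _ hZS)))
        _ = _ := by ring
    have hS2 : ((AllS R O π g (h + E)).ncard : ℝ) ≤
        ((c * (W * 2) + 1 : ℕ) : ℝ) * ((ZA K D dS (FamS π g D h)).ncard : ℝ) := by
      have : (AllS R O π g (h + E)).ncard ≤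
          (c * (W * 2) + 1) * (ZA K D dS (FamS π g D h)).ncard :=
        hS1.trans (Nat.mul_le_mul_right _ (Nat.le_succ _))
      exact_mod_cast this
    have hpos : (0 : ℝ) < ((c * (W * 2) + 1 : ℕ) : ℝ) := by positivity
    rw [inv_mul_le_iff₀ hpos]
    exact hS2

end Pool.PRK
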